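import Mathlib

namespace Pool.Agent.Results.MP_efe010_an.Full

open Filter Topology

/-- a solution with nonnegative initial values; `x m` stands for `x_{m-2}` -/
def Sol (α A : ℝ) (x : ℕ → ℝ) : Prop :=
  0 ≤ x 0 ∧ 0 ≤ x 1 ∧ 0 ≤ x 2 ∧ ∀ n, x (n + 3) = (α + x n) / (A + x (n + 2))

/-- the equilibrium -/
noncomputable def xbar (α A : ℝ) : ℝ := (1 - A + √((1 - A) ^ 2 + 4 * α)) / 2

/-- the bound `α₊(A)` -/
noncomputable def alphaPlus (A : ℝ) : ℝ := (2 - A + √(5 * A ^ 2 - 4 * A ^ 3)) / 2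

lemma nonneg {x : ℕ → ℝ} (h : Sol (3 / 4) (3 / 4) x) (n : ℕ) : 0 ≤ x n := by
  obtain ⟨h0, h1, h2, h⟩ := h
  induction n using Nat.strong_induction_on with
  | _ n ih =>
    match n with
    | 0 => exact h0
    | 1 => exact h1
    | 2 => exact h2
    | n + 3 =>
      have := ih n (by omega); have := ih (n + 2) (by omega)
      rw [h]; positivity

lemma step {x : ℕ → ℝ} (h : Sol (3 / 4) (3 / 4) x) {t : ℝ} (ht : 1 ≤ t) (n : ℕ)
    (h0 : 1 ≤ t * x n ∧ x n ≤ t) (h1 : 1 ≤ t * x (n + 1) ∧ x (n + 1) ≤ t)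
    (h2 : 1 ≤ t * x (n + 2) ∧ x (n + 2) ≤ t) :
    1 ≤ (1 + 44 / 49 * (t - 1)) * x (n + 5) ∧ x (n + 5) ≤ 1 + 44 / 49 * (t - 1) := by
  have e : x (n + 5) * (3 / 4 / (3 / 4 + x (n + 2))
      + (3 / 4 + x (n + 1)) / (3 / 4 * (3 / 4 + x (n + 2)) + (3 / 4 + x n))) = 1 := by
    have a0 := nonneg h n
    have a1 := nonneg h (n + 1)
    have a2 := nonneg h (n + 2)
    rw [h.2.2.2 (n + 2), h.2.2.2 (n + 1), h.2.2.2 n]
    field_simp
  have y0 := nonneg h (n + 5)
  have a0 := nonneg h n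
  have a1 := nonneg h (n + 1)
  have a2 := nonneg h (n + 2)
  have t0 : 0 < t := by linarith
  have l0 : 1 / t ≤ x n := by rw [div_le_iff₀' t0]; exact h0.1
  have l1 : 1 / t ≤ x (n + 1) := by rw [div_le_iff₀' t0]; exact h1.1
  have l2 : 1 / t ≤ x (n + 2) := by rw [div_le_iff₀' t0]; exact h2.1
  have u0 := h0.2
  have u1 := h1.2
  have u2 := h2.2
  generalize x (n + 5) = y at *
  generalize x n = r at *
  generalize x (n + 1) = s at *
  generalize x (n + 2) = w at *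
  constructor
  · have b : 3 / 4 / (3 / 4 + w) + (3 / 4 + s) / (3 / 4 * (3 / 4 + w) + (3 / 4 + r))
        ≤ 3 / 4 / (3 / 4 + 1 / t) + (3 / 4 + t) / (3 / 4 * (3 / 4 + 1 / t) + (3 / 4 + 1 / t)) := by
      gcongr
    have c : 3 / 4 / (3 / 4 + 1 / t) + (3 / 4 + t) / (3 / 4 * (3 / 4 + 1 / t) + (3 / 4 + 1 / t))
        = t * (33 + 16 * t) / (21 * t + 28) := by field_simp; ring
    have d : t * (33 + 16 * t) / (21 * t + 28) ≤ 1 + 44 / 49 * (t - 1) := by
      rw [div_le_iff₀ (by positivity)]; nlinarith [sq_nonneg (t - 1)]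
    have := mul_le_mul_of_nonneg_left (b.trans (c.le.trans d)) y0
    linarith
  · have b : 3 / 4 / (3 / 4 + t) + (3 / 4 + 1 / t) / (3 / 4 * (3 / 4 + t) + (3 / 4 + t))
        ≤ 3 / 4 / (3 / 4 + w) + (3 / 4 + s) / (3 / 4 * (3 / 4 + w) + (3 / 4 + r)) := by
      gcongr
    have c : 3 / 4 / (3 / 4 + t) + (3 / 4 + 1 / t) / (3 / 4 * (3 / 4 + t) + (3 / 4 + t))
        = (33 * t + 16) / (7 * t * (3 + 4 * t)) := by field_simp; ring
    have d : 1 / (1 + 44 / 49 * (t - 1)) ≤ (33 * t + 16) / (7 * t * (3 + 4 * t)) := by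
      rw [div_le_div_iff₀ (by linarith) (by positivity)]; nlinarith [sq_nonneg (t - 1)]
    have := mul_le_mul_of_nonneg_left (d.trans (c.ge.trans b)) y0
    rw [e, mul_one_div, div_le_one (by linarith)] at this
    exact this

lemma conv {x : ℕ → ℝ} (h : Sol (3 / 4) (3 / 4) x) : Tendsto x atTop (𝓝 1) := by
  have pos : ∀ n, 0 < x (n + 3) := fun n => by
    have := nonneg h n; have := nonneg h (n + 2)
    rw [h.2.2.2]; positivity
  obtain ⟨t, ht, hi⟩ : ∃ t : ℝ, 1 ≤ t ∧ ∀ i < 5, 1 ≤ t * x (i + 3) ∧ x (i + 3) ≤ t := by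
    refine ⟨1 + ∑ i ∈ Finset.range 5, (x (i + 3) + 1 / x (i + 3)), ?_, fun i hi => ?_⟩
    · have : 0 ≤ ∑ i ∈ Finset.range 5, (x (i + 3) + 1 / x (i + 3)) :=
        Finset.sum_nonneg fun i _ => by have := pos i; positivity
      linarith
    · have h1 : x (i + 3) + 1 / x (i + 3) ≤ ∑ i ∈ Finset.range 5, (x (i + 3) + 1 / x (i + 3)) :=
        Finset.single_le_sum (f := fun i => x (i + 3) + 1 / x (i + 3))
          (fun i _ => by have := pos i; positivity) (Finset.mem_range.2 hi)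
      have h2 := pos i
      have h3 : 0 < 1 / x (i + 3) := by positivity
      have h4 : 1 / x (i + 3) * x (i + 3) = 1 := by field_simp
      constructor
      · nlinarith
      · linarith
  have base : ∀ i, 1 ≤ t * x (i + 3) ∧ x (i + 3) ≤ t := by
    intro i
    induction i using Nat.strong_induction_on with
    | _ i ih =>
      rcases Nat.lt_or_ge i 5 with h5 | h5
      · exact hi i h5
      · obtain ⟨j, rfl⟩ : ∃ j, i = j + 5 := ⟨i - 5, by omega⟩
        obtain ⟨a, b⟩ := step h ht (j + 3) (ih j (by omega)) (ih (j + 1) (by omega))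
          (ih (j + 2) (by omega))
        have c := pos (j + 5)
        rw [show j + 3 + 5 = j + 5 + 3 by ring] at a b
        constructor
        · nlinarith
        · linarith
  have it : ∀ k i : ℕ, 1 ≤ (1 + (44 / 49) ^ k * (t - 1)) * x (i + 5 * k + 3) ∧
      x (i + 5 * k + 3) ≤ 1 + (44 / 49) ^ k * (t - 1) := by
    intro k
    induction k with
    | zero => intro i; simpa using base i
    | succ k ih =>
      intro i
      have h1 : (1 : ℝ) ≤ 1 + (44 / 49) ^ k * (t - 1) := by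
        have : 0 ≤ (44 / 49 : ℝ) ^ k * (t - 1) := mul_nonneg (by positivity) (by linarith)
        linarith
      have a1 := ih (i + 1)
      have a2 := ih (i + 2)
      rw [show i + 1 + 5 * k + 3 = i + 5 * k + 3 + 1 by ring] at a1
      rw [show i + 2 + 5 * k + 3 = i + 5 * k + 3 + 2 by ring] at a2
      have := step h h1 (i + 5 * k + 3) (ih i) a1 a2
      rw [show i + 5 * k + 3 + 5 = i + 5 * (k + 1) + 3 by ring,
        show 1 + 44 / 49 * (1 + (44 / 49 : ℝ) ^ k * (t - 1) - 1) = 1 + (44 / 49) ^ (k + 1) * (t - 1) by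
          ring] at this
      exact this
  rw [Metric.tendsto_atTop]
  intro ε hε
  have lim : Tendsto (fun k : ℕ => (44 / 49 : ℝ) ^ k * (t - 1) * t) atTop (𝓝 0) := by
    simpa using ((tendsto_pow_atTop_nhds_zero_of_lt_one (r := (44 / 49 : ℝ)) (by norm_num)
      (by norm_num)).mul_const (t - 1)).mul_const t
  obtain ⟨k, hk⟩ := (lim.eventually (gt_mem_nhds hε)).exists
  refine ⟨5 * k + 3, fun n hn => ?_⟩
  obtain ⟨i, rfl⟩ : ∃ i, n = i + 5 * k + 3 := ⟨n - 5 * k - 3, by omega⟩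
  obtain ⟨a, b⟩ := it k i
  have c := (base (i + 5 * k)).2
  have d : 0 ≤ (44 / 49 : ℝ) ^ k * (t - 1) := mul_nonneg (by positivity) (by linarith)
  generalize (44 / 49 : ℝ) ^ k * (t - 1) = δ at *
  rw [Real.dist_eq, abs_lt]
  constructor <;> nlinarith

theorem result : ¬ ∀ A α : ℝ, 0 < A → A < 1 → 0 < α → α < alphaPlus A →
    ∃ x, Sol α A x ∧ ¬ Tendsto x atTop (𝓝 (xbar α A)) ∧
      ¬ ∃ p, Sol α A p ∧ (∃ T, 1 ≤ T ∧ ∀ n, p (n + T) = p n) ∧
        Tendsto (fun n => x n - p n) atTop (𝓝 0) := by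
  intro h
  obtain ⟨x, hx, h1, -⟩ := h (3 / 4) (3 / 4) (by norm_num) (by norm_num) (by norm_num) (by
    have : (1 : ℝ) ≤ √(5 * (3 / 4) ^ 2 - 4 * (3 / 4) ^ 3) := Real.le_sqrt_of_sq_le (by norm_num)
    unfold alphaPlus; linarith)
  have e : xbar (3 / 4) (3 / 4) = 1 := by
    have : √((1 - 3 / 4) ^ 2 + 4 * (3 / 4) : ℝ) = 7 / 4 := by
      rw [show ((1 - 3 / 4) ^ 2 + 4 * (3 / 4) : ℝ) = (7 / 4) ^ 2 by norm_num]
      exact Real.sqrt_sq (by norm_num)
    unfold xbar; rw [this]; norm_num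
  exact h1 (e ▸ conv hx)

end Pool.Agent.Results.MP_efe010_an.Full
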